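import Pool.Agent.H57.AR.Targets

/-!
# Row SHV: the structure of pairs
-/

set_option autoImplicit false

namespace Pool.Agent.H35.AR

open Pool.Agent.H68.BP Pool.Agent.H58.SF Pool.Agent.H53.GC Pool.Agent.H53.NR Pool.Agent.H53.GR
open Pool.Agent.H57.AR
open Pool.Agent.H57.SO (Pal Col vt Exa Sb FBl Sbn Bh fib sigF Same Uni Can Stp TyInv)
open Pool.Agent.H44.SO (sig0 str0)
open Function

section conf

variable {S X R : Type} (P : Pal S X)

/-- configurations of pairs without three elements such that no two of them are free -/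
def Cf (t : R → S) (d : R → R → X) : Prop :=
  (∀ i j, i ≠ j → P.ls (d i j) = t i ∧ d j i = P.rv (d i j)) ∧
  ∀ i j k, i ≠ j → j ≠ k → i ≠ k →
    d i j = P.fr (t i) (t j) ∨ d j k = P.fr (t j) (t k) ∨ d i k = P.fr (t i) (t k)

/-- extension of the types to all numbers -/
def exT {n : ℕ} (s0 : S) (t : Fin n → S) (i : ℕ) : S := if h : i < n then t ⟨i, h⟩ else s0

/-- extension of the colours to all numbers -/
def exD {n : ℕ} (s0 : S) (t : Fin n → S) (d : Fin n → Fin n → X) (i j : ℕ) : X :=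
  if h : i < n ∧ j < n then d ⟨i, h.1⟩ ⟨j, h.2⟩ else P.fr (exT s0 t i) (exT s0 t j)

variable {P}

theorem exT_lt {n : ℕ} {s0 : S} {t : Fin n → S} {i : ℕ} (h : i < n) : exT s0 t i = t ⟨i, h⟩ :=
  dif_pos h

theorem exD_lt {n : ℕ} {s0 : S} {t : Fin n → S} {d : Fin n → Fin n → X} {i j : ℕ} (hi : i < n)
    (hj : j < n) : exD P s0 t d i j = d ⟨i, hi⟩ ⟨j, hj⟩ := dif_pos ⟨hi, hj⟩

theorem exD_ge {n : ℕ} {s0 : S} {t : Fin n → S} {d : Fin n → Fin n → X} {i j : ℕ}
    (h : ¬ (i < n ∧ j < n)) : exD P s0 t d i j = P.fr (exT s0 t i) (exT s0 t j) := dif_neg h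

theorem cf_ex {n : ℕ} (s0 : S) {t : Fin n → S} {d : Fin n → Fin n → X} (h : Cf P t d) :
    Cf P (exT s0 t) (exD P s0 t d) := by
  constructor
  · intro i j hij
    by_cases hb : i < n ∧ j < n
    · have hne : (⟨i, hb.1⟩ : Fin n) ≠ ⟨j, hb.2⟩ := fun he => hij (congrArg Fin.val he)
      rw [exD_lt hb.1 hb.2, exD_lt hb.2 hb.1, exT_lt hb.1]
      exact h.1 _ _ hne
    · rw [exD_ge hb, exD_ge (fun h => hb ⟨h.2, h.1⟩)]
      exact ⟨P.ls_fr _ _, (P.rv_fr _ _).symm⟩
  · intro i j k hij hjk hik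
    by_cases hb : i < n ∧ j < n
    · by_cases hc : j < n ∧ k < n
      · have h1 : (⟨i, hb.1⟩ : Fin n) ≠ ⟨j, hb.2⟩ := fun he => hij (congrArg Fin.val he)
        have h2 : (⟨j, hb.2⟩ : Fin n) ≠ ⟨k, hc.2⟩ := fun he => hjk (congrArg Fin.val he)
        have h3 : (⟨i, hb.1⟩ : Fin n) ≠ ⟨k, hc.2⟩ := fun he => hik (congrArg Fin.val he)
        rw [exD_lt hb.1 hb.2, exD_lt hb.2 hc.2, exD_lt hb.1 hc.2, exT_lt hb.1, exT_lt hb.2,
          exT_lt hc.2]
        exact h.2 _ _ _ h1 h2 h3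
      · exact Or.inr (Or.inl (exD_ge hc))
    · exact Or.inl (exD_ge hb)

theorem cf_empty {t : Fin 0 → S} {d : Fin 0 → Fin 0 → X} : Cf P t d :=
  ⟨fun i => i.elim0, fun i => i.elim0⟩

/-- a sequence of all configurations -/
theorem seq_exists [Finite S] [Finite X] (s0 : S) : ∃ (T : ℕ → ℕ → S) (D : ℕ → ℕ → ℕ → X),
    (∀ q, Cf P (T q) (D q)) ∧ ∀ (n : ℕ) (t : Fin n → S) (d : Fin n → Fin n → X), Cf P t d →
      ∃ q, (∀ i : Fin n, T q i = t i) ∧ ∀ i j : Fin n, i ≠ j → D q i j = d i j := by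
  let C : Type := {p : Σ n : ℕ, (Fin n → S) × (Fin n → Fin n → X) // Cf P p.2.1 p.2.2}
  have hne : Nonempty C := ⟨⟨⟨0, fun i => i.elim0, fun i => i.elim0⟩, cf_empty⟩⟩
  have hcnt : Countable C := inferInstance
  obtain ⟨e, he⟩ := exists_surjective_nat C
  refine ⟨fun q => exT s0 (e q).1.2.1, fun q => exD P s0 (e q).1.2.1 (e q).1.2.2,
    fun q => cf_ex s0 (e q).2, fun n t d h => ?_⟩
  obtain ⟨q, hq⟩ := he ⟨⟨n, t, d⟩, h⟩
  refine ⟨q, ?_⟩
  dsimp only
  rw [hq]
  exact ⟨fun i => exT_lt i.2, fun i j _ => exD_lt i.2 j.2⟩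

/-! ### The structure -/

/-- the types of the elements -/
def tyq (T : ℕ → ℕ → S) (x : ℕ ×ₗ ℕ) : S := T (ofLex x).1 (ofLex x).2

variable (P) in
/-- the colours of the pairs of different elements -/
def clq (T : ℕ → ℕ → S) (D : ℕ → ℕ → ℕ → X) (x y : ℕ ×ₗ ℕ) : X :=
  if (ofLex x).1 = (ofLex y).1 then D (ofLex x).1 (ofLex x).2 (ofLex y).2
  else P.fr (tyq T x) (tyq T y)

theorem cf_q {T : ℕ → ℕ → S} {D : ℕ → ℕ → ℕ → X} (h : ∀ q, Cf P (T q) (D q)) :
    Cf P (tyq T) (clq P T D) := by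
  have hne : ∀ x y : ℕ ×ₗ ℕ, x ≠ y → (ofLex x).1 = (ofLex y).1 → (ofLex x).2 ≠ (ofLex y).2 :=
    fun x y hxy h1 h2 => hxy (congrArg toLex (Prod.ext h1 h2))
  constructor
  · intro x y hxy
    unfold clq
    by_cases hq : (ofLex x).1 = (ofLex y).1
    · rw [if_pos hq, if_pos hq.symm]
      have h1 := (h (ofLex x).1).1 _ _ (hne x y hxy hq)
      exact ⟨h1.1, by rw [← hq]; exact h1.2⟩
    · rw [if_neg hq, if_neg (Ne.symm hq)]
      exact ⟨P.ls_fr _ _, (P.rv_fr _ _).symm⟩
  · intro x y z hxy hyz hxz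
    unfold clq
    by_cases h1 : (ofLex x).1 = (ofLex y).1
    · by_cases h2 : (ofLex y).1 = (ofLex z).1
      · rw [if_pos h1, if_pos h2, if_pos (h1.trans h2)]
        have h3 := (h (ofLex x).1).2 _ _ _ (hne x y hxy h1) (hne y z hyz h2)
          (hne x z hxz (h1.trans h2))
        unfold tyq
        rw [← h2, ← h1]
        exact h3
      · exact Or.inr (Or.inl (if_neg h2))
    · exact Or.inl (if_neg h1)

theorem emb_q {T : ℕ → ℕ → S} {D : ℕ → ℕ → ℕ → X}
    (h : ∀ (n : ℕ) (t : Fin n → S) (d : Fin n → Fin n → X), Cf P t d →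
      ∃ q, (∀ i : Fin n, T q i = t i) ∧ ∀ i j : Fin n, i ≠ j → D q i j = d i j)
    {n : ℕ} {t : Fin n → S} {d : Fin n → Fin n → X} (hc : Cf P t d) :
    ∃ f : Fin n → ℕ ×ₗ ℕ, StrictMono f ∧ (∀ i, tyq T (f i) = t i) ∧
      ∀ i j, i ≠ j → clq P T D (f i) (f j) = d i j := by
  obtain ⟨q, h1, h2⟩ := h n t d hc
  refine ⟨fun i => toLex (q, (i : ℕ)), fun i j hij => ?_, fun i => h1 i, fun i j hij => ?_⟩
  · rw [Prod.Lex.toLex_lt_toLex]
    exact Or.inr ⟨rfl, hij⟩
  · unfold clq
    exact (if_pos rfl).trans (h2 i j hij)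

end conf

/-! ### The colouring -/

section col

variable {S X R : Type} {P : Pal S X}

open Classical in
/-- the colouring given by a configuration -/
noncomputable def cq (t : R → S) (d : R → R → X) (x y : R) : S ⊕ X :=
  if x = y then Sum.inl (t x) else Sum.inr (d x y)

theorem cq_eq (t : R → S) (d : R → R → X) (x : R) : cq t d x x = Sum.inl (t x) := if_pos rfl

theorem cq_ne (t : R → S) (d : R → R → X) {x y : R} (h : x ≠ y) :
    cq t d x y = Sum.inr (d x y) := if_neg h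

theorem cq_inr {t : R → S} {d : R → R → X} {x y : R} {u : X} (h : cq t d x y = Sum.inr u) :
    x ≠ y ∧ d x y = u := by
  by_cases hxy : x = y
  · rw [hxy, cq_eq] at h
    exact absurd h (by simp)
  · rw [cq_ne t d hxy] at h
    exact ⟨hxy, Sum.inr.inj h⟩

/-- the structure has all configurations -/
structure Big [LinearOrder R] (P : Pal S X) (t : R → S) (d : R → R → X) : Prop where
  cf : Cf P t d
  emb : ∀ (n : ℕ) (t' : Fin n → S) (d' : Fin n → Fin n → X), Cf P t' d' →
    ∃ f : Fin n → R, StrictMono f ∧ (∀ i, t (f i) = t' i) ∧ ∀ i j, i ≠ j → d (f i) (f j) = d' i j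

variable [LinearOrder R] {t : R → S} {d : R → R → X}

theorem col_q (h : Big P t d) (h1 : ∀ x, P.rs x = P.ls (P.rv x)) (h2 : ∀ x, P.rv (P.rv x) = x) :
    Col P (cq t d) := by
  refine ⟨fun x y => ?_, fun x y u hu => ?_, fun x y u hu => ?_, fun x y u hu => ?_,
    fun s => ?_, fun u => ?_⟩
  · constructor
    · rintro ⟨s, hs⟩
      by_contra hxy
      rw [cq_ne t d hxy] at hs
      exact absurd hs (by simp)
    · rintro rfl
      exact ⟨_, cq_eq t d x⟩
  · obtain ⟨hxy, rfl⟩ := cq_inr hu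
    rw [cq_eq, (h.cf.1 x y hxy).1]
  · obtain ⟨hxy, rfl⟩ := cq_inr hu
    rw [cq_eq, h1, ← (h.cf.1 x y hxy).2, (h.cf.1 y x hxy.symm).1]
  · obtain ⟨hxy, rfl⟩ := cq_inr hu
    rw [cq_ne t d hxy.symm, (h.cf.1 x y hxy).2]
  · obtain ⟨f, -, g1, -⟩ := h.emb 1 (fun _ => s) (fun _ _ => P.fr s s)
      ⟨fun i j hij => absurd (Subsingleton.elim i j) hij,
        fun i j _ hij => absurd (Subsingleton.elim i j) hij⟩
    exact ⟨f 0, by rw [cq_eq, g1]⟩
  · obtain ⟨f, g0, -, g2⟩ := h.emb 2 (fun i => if i = 0 then P.ls u else P.rs u)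
      (fun i _ => if i = 0 then u else P.rv u) (by
        constructor
        · intro i j hij
          rcases Fin.exists_fin_two.1 ⟨i, rfl⟩ with rfl | rfl <;>
            rcases Fin.exists_fin_two.1 ⟨j, rfl⟩ with rfl | rfl
          · exact absurd rfl hij
          · exact ⟨rfl, rfl⟩
          · exact ⟨(h1 u).symm, (h2 u).symm⟩
          · exact absurd rfl hij
        · intro i j k hij hjk hik
          exact absurd hik (by omega))
    refine ⟨f 0, f 1, ?_⟩
    have h01 : (0 : Fin 2) ≠ 1 := by decide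
    rw [cq_ne t d (fun he => h01 (g0.injective he)), g2 0 1 h01]
    rfl

theorem uni_q (h : Big P t d) (h1 : ∀ x, P.rs x = P.ls (P.rv x)) (h2 : ∀ x, P.rv (P.rv x) = x)
    {M : ℕ} (hM : 3 ≤ M) : Uni P (cq t d) M := by
  have hcol := col_q h h1 h2
  intro n t' d' H
  -- the types of the pairs
  have hty : ∀ i j, i < j → P.ls (d' i j) = t' i ∧ P.rs (d' i j) = t' j := by
    intro i j hij
    by_cases hf : d' i j = P.fr (t' i) (t' j)
    · rw [hf]
      exact ⟨P.ls_fr _ _, P.rs_fr _ _⟩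
    · obtain ⟨v, v1, v2⟩ := H 2 ![i, j] (by omega)
        (by
          intro a b hab
          rcases Fin.exists_fin_two.1 ⟨a, rfl⟩ with rfl | rfl <;>
            rcases Fin.exists_fin_two.1 ⟨b, rfl⟩ with rfl | rfl
          · exact absurd hab (lt_irrefl _)
          · exact hij
          · exact absurd hab (by decide)
          · exact absurd hab (lt_irrefl _))
        (by
          intro a b hab
          rcases Fin.exists_fin_two.1 ⟨a, rfl⟩ with rfl | rfl <;>
            rcases Fin.exists_fin_two.1 ⟨b, rfl⟩ with rfl | rfl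
          · exact absurd hab (lt_irrefl _)
          · exact hf
          · exact absurd hab (by decide)
          · exact absurd hab (lt_irrefl _))
      have v3 := v2 0 1 (by decide)
      have e0 := (v1 0).symm.trans (hcol.left _ _ _ v3)
      have e1 := (v1 1).symm.trans (hcol.right _ _ _ v3)
      exact ⟨(Sum.inl.inj e0).symm, (Sum.inl.inj e1).symm⟩
  let D : Fin n → Fin n → X := fun i j => if i < j then d' i j else P.rv (d' j i)
  have Dlt : ∀ {i j}, i < j → D i j = d' i j := fun h => if_pos h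
  have Dgt : ∀ {i j}, j < i → D i j = P.rv (d' j i) := fun h => if_neg (not_lt.2 h.le)
  have hsym : ∀ i j, i ≠ j → (D i j = P.fr (t' i) (t' j) ↔ D j i = P.fr (t' j) (t' i)) := by
    intro i j hij
    rcases lt_or_gt_of_ne hij with hl | hl
    · rw [Dlt hl, Dgt hl]
      constructor
      · intro e
        rw [e, P.rv_fr]
      · intro e
        rw [← h2 (d' i j), e, P.rv_fr]
    · rw [Dgt hl, Dlt hl]
      constructor
      · intro e
        rw [← h2 (d' j i), e, P.rv_fr]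
      · intro e
        rw [e, P.rv_fr]
  have hsort : ∀ a b e : Fin n, a < b → b < e → D a b = P.fr (t' a) (t' b) ∨
      D b e = P.fr (t' b) (t' e) ∨ D a e = P.fr (t' a) (t' e) := by
    intro a b e hab hbe
    rw [Dlt hab, Dlt hbe, Dlt (hab.trans hbe)]
    by_contra hcon
    push Not at hcon
    obtain ⟨n1, n2, n3⟩ := hcon
    have hs : StrictMono ![a, b, e] := by
      rw [Fin.strictMono_iff_lt_succ]
      intro i
      rcases Fin.exists_fin_two.1 ⟨i, rfl⟩ with rfl | rfl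
      · exact hab
      · exact hbe
    obtain ⟨v, v1, v2⟩ := H 3 ![a, b, e] hM hs (by
      intro i j hij
      have : (i = 0 ∧ j = 1) ∨ (i = 1 ∧ j = 2) ∨ (i = 0 ∧ j = 2) := by omega
      rcases this with ⟨rfl, rfl⟩ | ⟨rfl, rfl⟩ | ⟨rfl, rfl⟩
      · exact n1
      · exact n2
      · exact n3)
    obtain ⟨w1, w2⟩ := cq_inr (v2 0 1 (by decide))
    obtain ⟨w3, w4⟩ := cq_inr (v2 1 2 (by decide))
    obtain ⟨w5, w6⟩ := cq_inr (v2 0 2 (by decide))
    have u0 : t (v 0) = t' a := Sum.inl.inj ((cq_eq t d (v 0)).symm.trans (v1 0))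
    have u1 : t (v 1) = t' b := Sum.inl.inj ((cq_eq t d (v 1)).symm.trans (v1 1))
    have u2 : t (v 2) = t' e := Sum.inl.inj ((cq_eq t d (v 2)).symm.trans (v1 2))
    have h3 := h.cf.2 (v 0) (v 1) (v 2) w1 w3 w5
    rw [u0, u1, u2, w2, w4, w6] at h3
    rcases h3 with h3 | h3 | h3
    · exact n1 h3
    · exact n2 h3
    · exact n3 h3
  have hcf : Cf P t' D := by
    constructor
    · intro i j hij
      rcases lt_or_gt_of_ne hij with hl | hl
      · rw [Dlt hl, Dgt hl]
        exact ⟨(hty i j hl).1, rfl⟩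
      · rw [Dgt hl, Dlt hl, h2, ← h1]
        exact ⟨(hty j i hl).2, rfl⟩
    · intro i j k hij hjk hik
      rcases lt_or_gt_of_ne hij with a1 | a1 <;> rcases lt_or_gt_of_ne hjk with a2 | a2 <;>
        rcases lt_or_gt_of_ne hik with a3 | a3
      · exact hsort i j k a1 a2
      · exact absurd (a1.trans a2) (not_lt.2 a3.le)
      · -- i < k < j
        rcases hsort i k j a3 a2 with e | e | e
        · exact Or.inr (Or.inr e)
        · exact Or.inr (Or.inl ((hsym k j hjk.symm).1 e))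
        · exact Or.inl e
      · -- k < i < j
        rcases hsort k i j a3 a1 with e | e | e
        · exact Or.inr (Or.inr ((hsym k i hik.symm).1 e))
        · exact Or.inl e
        · exact Or.inr (Or.inl ((hsym k j hjk.symm).1 e))
      · -- j < i < k
        rcases hsort j i k a1 a3 with e | e | e
        · exact Or.inl ((hsym j i hij.symm).1 e)
        · exact Or.inr (Or.inr e)
        · exact Or.inr (Or.inl e)
      · -- j < k < i
        rcases hsort j k i a2 a3 with e | e | e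
        · exact Or.inr (Or.inl e)
        · exact Or.inr (Or.inr ((hsym k i hik.symm).1 e))
        · exact Or.inl ((hsym j i hij.symm).1 e)
      · exact absurd (a2.trans a1) (not_lt.2 a3.le)
      · -- k < j < i
        rcases hsort k j i a2 a1 with e | e | e
        · exact Or.inr (Or.inl ((hsym k j hjk.symm).1 e))
        · exact Or.inl ((hsym j i hij.symm).1 e)
        · exact Or.inr (Or.inr ((hsym k i hik.symm).1 e))
  obtain ⟨f, f0, f1, f2⟩ := h.emb n t' D hcf
  refine ⟨f, f0, fun i => by rw [cq_eq, f1], fun i j hij => ?_⟩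
  rw [cq_ne t d (fun he => hij.ne (f0.injective he)), f2 i j hij.ne, Dlt hij]

end col

theorem pf_SHV (hCF2 : T_CF2) : T_SHV := by
  intro σ ρ V S X _ P 𝔸 𝔹 M c hst
  have hcol := hst.lnk.col
  have h1 : ∀ x, P.rs x = P.ls (P.rv x) := by
    intro x
    obtain ⟨u, v, huv⟩ := hcol.surX x
    have e1 := hcol.right _ _ _ huv
    have e2 := hcol.left _ _ _ (hcol.swap _ _ _ huv)
    exact Sum.inl.inj (e1.symm.trans e2)
  have h2 : ∀ x, P.rv (P.rv x) = x := by
    intro x
    obtain ⟨u, v, huv⟩ := hcol.surX x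
    have e1 := hcol.swap _ _ _ (hcol.swap _ _ _ huv)
    exact (Sum.inr.inj (huv.symm.trans e1)).symm
  have := hst.lnk.finS
  have := hst.lnk.finX
  obtain ⟨v0⟩ := hst.base.ne
  obtain ⟨T, D, hq1, hq2⟩ := seq_exists (P := P) (vt P c v0)
  have hbig : Big P (tyq T) (clq P T D) := ⟨cf_q hq1, fun n t' d' hc => emb_q hq2 hc⟩
  refine ⟨ℕ ×ₗ ℕ, inferInstance, cq (tyq T) (clq P T D), ?_, ?_, ?_⟩
  · refine ⟨hst.lnk.finS, hst.lnk.finX, ⟨toLex (0, 0)⟩, ?_, hst.base.three, col_q hbig h1 h2,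
      uni_q hbig h1 h2 hst.base.three, fun _ _ _ _ _ => trivial⟩
    exact inferInstanceAs (Countable (ℕ × ℕ))
  · -- lift
    intro W _ x
    have : Finite (Set.range x) := Set.finite_range x
    obtain ⟨f, f1, f2, f3, f4⟩ := hCF2 σ ρ V S X P 𝔸 𝔹 M c hst (Set.range x) (ℕ ×ₗ ℕ)
      (fun u => (u : ℕ ×ₗ ℕ)) (fun u => tyq T u) (fun u v => clq P T D u v)
      Subtype.val_injective
      (fun u v huv => hbig.cf.1 u v fun he => huv (Subtype.ext he))
      (fun u v w huv hvw huw => hbig.cf.2 u v w (fun he => huv (Subtype.ext he))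
        (fun he => hvw (Subtype.ext he)) fun he => huw (Subtype.ext he))
    refine ⟨fun a => f ⟨x a, a, rfl⟩, ?_, fun a b => ⟨f1 _ _, ?_⟩⟩
    · intro l z hz
      obtain ⟨⟨_, a, rfl⟩, ⟨_, b, rfl⟩, hab⟩ := f4 l (fun i => ⟨x (z i), z i, rfl⟩) hz
      exact ⟨a, b, hab⟩
    · by_cases hab : x a = x b
      · have e : (⟨x a, a, rfl⟩ : Set.range x) = ⟨x b, b, rfl⟩ := Subtype.ext hab
        show c (f ⟨x a, a, rfl⟩) (f ⟨x b, b, rfl⟩) = _
        rw [e, f2, hab, cq_eq]
      · have e : (⟨x a, a, rfl⟩ : Set.range x) ≠ ⟨x b, b, rfl⟩ := fun he =>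
          hab (congrArg Subtype.val he)
        rw [f3 _ _ e, cq_ne _ _ hab]
  · -- down
    intro W _ y hy
    classical
    have hfin : (Set.range y).Finite := Set.finite_range y
    let F : Finset V := hfin.toFinset
    have hF : ∀ v, v ∈ F ↔ ∃ a, y a = v := fun v => by
      rw [Set.Finite.mem_toFinset]
      rfl
    let e := F.orderIsoOfFin rfl
    have hcc : ∀ u v : V, u ≠ v → ∃ w, c u v = Sum.inr w := by
      intro u v huv
      rcases hc : c u v with s | w
      · exact absurd ((hcol.eq_iff u v).1 ⟨s, hc⟩) huv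
      · exact ⟨w, rfl⟩
    have hvt : ∀ u : V, c u u = Sum.inl (vt P c u) := by
      intro u
      obtain ⟨s, hs⟩ := (hcol.eq_iff u u).2 rfl
      unfold vt
      rw [hs]
      rfl
    let d' : Fin F.card → Fin F.card → X := fun i j =>
      Sum.elim (fun s => P.fr s s) id (c (e i : V) (e j : V))
    have hd' : ∀ i j w, c (e i : V) (e j : V) = Sum.inr w → d' i j = w := by
      intro i j w hw
      show Sum.elim (fun s => P.fr s s) id (c (e i : V) (e j : V)) = w
      rw [hw]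
      rfl
    have hne : ∀ i j, i ≠ j → (e i : V) ≠ (e j : V) := fun i j hij he =>
      hij (e.injective (Subtype.ext he))
    have hcf : Cf P (fun i => vt P c (e i : V)) d' := by
      constructor
      · intro i j hij
        obtain ⟨w, hw⟩ := hcc _ _ (hne i j hij)
        rw [hd' i j w hw, hd' j i _ (hcol.swap _ _ _ hw)]
        refine ⟨?_, rfl⟩
        exact (Sum.inl.inj ((hvt _).symm.trans (hcol.left _ _ _ hw))).symm
      · intro i j k hij hjk hik
        obtain ⟨a, ha⟩ := (hF _).1 (e i).2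
        obtain ⟨b, hb⟩ := (hF _).1 (e j).2
        obtain ⟨b', hb'⟩ := (hF _).1 (e k).2
        have h3 := hy a b b' (by rw [ha, hb]; exact hne i j hij)
          (by rw [hb, hb']; exact hne j k hjk) (by rw [ha, hb']; exact hne i k hik)
        rw [ha, hb, hb'] at h3
        rcases h3 with h3 | h3 | h3
        · exact Or.inl (hd' _ _ _ h3)
        · exact Or.inr (Or.inl (hd' _ _ _ h3))
        · exact Or.inr (Or.inr (hd' _ _ _ h3))
    obtain ⟨f, f0, f1, f2⟩ := hbig.emb _ _ _ hcf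
    have hmem : ∀ a, y a ∈ F := fun a => (hF _).2 ⟨a, rfl⟩
    have hix : ∀ a, (e (e.symm ⟨y a, hmem a⟩) : V) = y a := fun a => by
      rw [OrderIso.apply_symm_apply]
    refine ⟨fun a => f (e.symm ⟨y a, hmem a⟩), fun a b => ⟨?_, ?_⟩⟩
    · rw [f0.lt_iff_lt, OrderIso.lt_iff_lt]
      exact Iff.rfl
    · by_cases hab : y a = y b
      · have e1 : (⟨y a, hmem a⟩ : {v // v ∈ F}) = ⟨y b, hmem b⟩ := Subtype.ext hab
        show cq (tyq T) (clq P T D) (f (e.symm ⟨y a, hmem a⟩)) (f (e.symm ⟨y b, hmem b⟩)) = _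
        rw [e1, cq_eq, f1, hix, hab, hvt]
      · have e1 : e.symm ⟨y a, hmem a⟩ ≠ e.symm ⟨y b, hmem b⟩ := fun he =>
          hab (congrArg Subtype.val (e.symm.injective he))
        rw [cq_ne _ _ (fun he => e1 (f0.injective he)), f2 _ _ e1]
        obtain ⟨w, hw⟩ := hcc _ _ hab
        rw [hw]
        congr 1
        exact hd' _ _ _ (by rw [hix, hix]; exact hw)

end Pool.Agent.H35.AR
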