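import Pool.Agent.H44.AR.BasicA

/-!
# Row SUB: restriction to a set of types of elements
-/

set_option autoImplicit false

namespace Pool.Agent.H35.AR

open Pool.Agent.H68.BP Pool.Agent.H58.SF Pool.Agent.H53.GC Pool.Agent.H53.NR Pool.Agent.H53.GR
open Pool.Agent.H57.AR Pool.Agent.H44.AR
open Pool.Agent.H57.SO (Pal Col vt Sb FBl)
open Pool.Agent.H57.EQ (Cx)

theorem pf_SUB : T_SUB := by
  intro ρ V _ 𝔹 M h S hS
  obtain ⟨x0, hx0⟩ := hS
  refine ⟨⟨⟨x0, hx0⟩⟩, ?_, h.three, h.ar, ?_⟩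
  · haveI := h.cnt
    exact Subtype.countable
  · intro n 𝕏 hX
    have hOK : OK 𝔹 M 𝕏 := by
      intro m s hm hs hi
      obtain ⟨f, hf⟩ := hX m s hm hs hi
      exact ⟨fun a => (f a : V), fun a b hab => hf.1 (Subtype.ext hab), hf.2⟩
    obtain ⟨f, hf1, hf2⟩ := h.univ n 𝕏 hOK
    have hmem : ∀ i, ty 𝔹 (f i) ∈ S := by
      intro i
      obtain ⟨g, hg⟩ := hX 1 (fun _ => i) (by have := h.three; omega)
        (fun a b _ => Subsingleton.elim a b) (fun a b hab => absurd (Subsingleton.elim a b) hab)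
      have e : ty 𝔹 (f i) = ty 𝔹 (g 0 : V) := by
        funext l
        exact propext ((hf2.2 l (fun _ => i)).symm.trans (hg.2 l (fun _ => 0)))
      rw [e]
      exact (g 0).2
    exact ⟨fun i => ⟨f i, hmem i⟩, fun i j hij => hf1 hij,
      fun i j hij => hf2.1 (congrArg Subtype.val hij), hf2.2⟩

end Pool.Agent.H35.AR
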